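import Pool.Agent.HIK.Stmts

/-! HIK, row ALG: an admissible equation of a multiple of an algebraic element. -/

set_option autoImplicit false

namespace Pool.Agent.Helper25_HIK

open Polynomial

theorem irreducible_scaleRoots {k : Type} [Field k] (m : k[X]) (hm : Irreducible m) (s : k)
    (hs : s ≠ 0) : Irreducible (m.scaleRoots s) := by
  have key : ∀ a : k[X], IsUnit (a.scaleRoots s⁻¹) → IsUnit a := by
    intro a ha
    have h1 : a = (a.scaleRoots s⁻¹).scaleRoots s := by
      rw [← scaleRoots_mul, inv_mul_cancel₀ hs, scaleRoots_one]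
    obtain ⟨c, hc, hca⟩ := Polynomial.isUnit_iff.mp ha
    rw [h1, ← hca, scaleRoots_C]
    exact Polynomial.isUnit_C.mpr hc
  constructor
  · intro h
    apply hm.not_isUnit
    obtain ⟨c, hc, hca⟩ := Polynomial.isUnit_iff.mp h
    have h1 : m = (m.scaleRoots s).scaleRoots s⁻¹ := by
      rw [← scaleRoots_mul, mul_inv_cancel₀ hs, scaleRoots_one]
    rw [h1, ← hca, scaleRoots_C]
    exact Polynomial.isUnit_C.mpr hc
  · intro a b hab
    have h1 : m = a.scaleRoots s⁻¹ * b.scaleRoots s⁻¹ := by
      rw [← mul_scaleRoots_of_noZeroDivisors, ← hab, ← scaleRoots_mul, mul_inv_cancel₀ hs,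
        scaleRoots_one]
    rcases hm.isUnit_or_isUnit h1 with h | h
    · exact Or.inl (key a h)
    · exact Or.inr (key b h)

theorem alg : Pool.Agent.HIK.AlgStmt := by
  intro A k Ω _ _ _ _ _ _ _ _ _ _ y hy hyk
  have hint : IsIntegral k y := hy.isIntegral
  set m := minpoly k y with hm
  have hmm : m.Monic := minpoly.monic hint
  have hmi : Irreducible m := minpoly.irreducible hint
  set s : A := ((IsLocalization.commonDenom (nonZeroDivisors A) m.support m.coeff :
    nonZeroDivisors A) : A) with hsdef
  have hs : s ≠ 0 := nonZeroDivisors.ne_zero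
    (IsLocalization.commonDenom (nonZeroDivisors A) m.support m.coeff).2
  have hinj : Function.Injective (algebraMap A k) := IsFractionRing.injective A k
  set σ : k := algebraMap A k s with hσ
  have hσ0 : σ ≠ 0 := by
    intro h
    apply hs
    apply hinj
    rw [map_zero]
    exact h
  have hl : m.scaleRoots σ ∈ Polynomial.lifts (algebraMap A k) :=
    IsLocalization.scaleRoots_commonDenom_mem_lifts (nonZeroDivisors A) m
      (by rw [hmm.leadingCoeff]; exact ⟨1, map_one _⟩)
  have hsm : (m.scaleRoots σ).Monic := (monic_scaleRoots_iff σ).mpr hmm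
  obtain ⟨g, hg, hgd, hgm⟩ := Polynomial.lifts_and_natDegree_eq_and_monic hl hsm
  have hirr : Irreducible (m.scaleRoots σ) := irreducible_scaleRoots m hmi σ hσ0
  refine ⟨s, g, hs, hgm, ?_, ?_, ?_⟩
  · have h1 : eval₂ (algebraMap k Ω) (algebraMap k Ω σ * y) (m.scaleRoots σ) = 0 :=
      scaleRoots_eval₂_eq_zero (algebraMap k Ω) (minpoly.aeval k y)
    rw [← hg, eval₂_map, ← IsScalarTower.algebraMap_eq, hσ,
      ← IsScalarTower.algebraMap_apply A k Ω] at h1
    exact h1
  · intro u hu
    rw [hg] at hu
    have h2 := Polynomial.degree_eq_one_of_irreducible_of_root hirr hu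
    rw [degree_scaleRoots] at h2
    exact hyk (minpoly.mem_range_of_degree_eq_one k y h2)
  · obtain ⟨a, b, hab⟩ := hirr.separable
    obtain ⟨ra, hra, hA⟩ := IsLocalization.integerNormalization_spec (nonZeroDivisors A) a
    obtain ⟨rb, hrb, hB⟩ := IsLocalization.integerNormalization_spec (nonZeroDivisors A) b
    set A' := IsLocalization.integerNormalization (nonZeroDivisors A) a
    set B' := IsLocalization.integerNormalization (nonZeroDivisors A) b
    refine ⟨C rb * A', C ra * B', ra * rb,
      mul_ne_zero (nonZeroDivisors.ne_zero hra) (nonZeroDivisors.ne_zero hrb), ?_⟩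
    apply Polynomial.map_injective (algebraMap A k) hinj
    rw [Polynomial.map_add, Polynomial.map_mul, Polynomial.map_mul, Polynomial.map_mul,
      Polynomial.map_mul, ← Polynomial.derivative_map, hg, hA, hB, map_C, map_C, map_C,
      Algebra.smul_def, Algebra.smul_def, IsScalarTower.algebraMap_apply A k k[X],
      IsScalarTower.algebraMap_apply A k k[X], Polynomial.algebraMap_eq, map_mul, map_mul]
    linear_combination (C (algebraMap A k ra) * C (algebraMap A k rb)) * hab

end Pool.Agent.Helper25_HIK
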